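import Pool.Agent.V11315.Flat

/-!
# The Liouville function is not flat from below

For `a : ℕ → ℂ` with `|a(n)| = 1` for `n ≥ 1` put `S_N(θ) = ∑_{n ≤ N} a(n) e(nθ)` and
`m(N) = min_θ |S_N(θ)|`. Then `m(N)` does not tend to infinity; a fortiori
`liminf m(N) / √N = 0`, for instance for the Liouville function.

Proof. If `m(N) > 1` for all `N ≥ N₀` then, by Rouche's theorem, the polynomials
`P_N = ∑_{n ≤ N} a(n) z^(n-1)`, `N ≥ N₀`, all have the same number `K` of zeros in the open unit disc,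
and no zero on the unit circle. The zeros have modulus at least `1/2`, the product of the moduli of
all of them is `1`, so that the Mahler measure of `P_N` is at most `2 ^ K`; and it is at least `m(N)`.
-/

set_option autoImplicit false

open Filter

namespace Pool.Agent.Results.MP_69dca4_nt.NotFlatFromBelow

/-- `S_N(θ) = ∑_{n = 1}^N a(n) e^{2 π i n θ}` -/
noncomputable def S (a : ℕ → ℂ) (N : ℕ) (θ : ℝ) : ℂ :=
  ∑ n ∈ Finset.Icc 1 N, a n * Complex.exp (2 * Real.pi * Complex.I * n * θ)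

/-- `m(N) = min_θ |S_N(θ)|` -/
noncomputable def m (a : ℕ → ℂ) (N : ℕ) : ℝ := ⨅ θ : ℝ, ‖S a N θ‖

theorem m_le (a : ℕ → ℂ) (N : ℕ) (θ : ℝ) : m a N ≤ ‖S a N θ‖ :=
  ciInf_le ⟨0, by rintro _ ⟨t, rfl⟩; exact norm_nonneg _⟩ θ

theorem m_nonneg (a : ℕ → ℂ) (N : ℕ) : 0 ≤ m a N := Real.iInf_nonneg fun _ => norm_nonneg _

theorem S_eq (a : ℕ → ℂ) (N : ℕ) (θ : ℝ) :
    ‖S a N θ‖ = ‖(Pool.Agent.V11315.Flat.P a N).eval (Complex.exp (2 * Real.pi * Complex.I * θ))‖ := by
  have h : S a N θ = Complex.exp (2 * Real.pi * Complex.I * θ) *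
      (Pool.Agent.V11315.Flat.P a N).eval (Complex.exp (2 * Real.pi * Complex.I * θ)) := by
    rw [Pool.Agent.V11315.Flat.P_eval]
    unfold S
    induction N with
    | zero => simp
    | succ N ih =>
      rw [Finset.sum_Icc_succ_top (by omega), ih, Finset.sum_range_succ, mul_add]
      congr 1
      rw [← Complex.exp_nat_mul, mul_left_comm, ← Complex.exp_add]
      congr 2
      push_cast
      ring
  rw [h, norm_mul]
  have : ‖Complex.exp (2 * Real.pi * Complex.I * θ)‖ = 1 := by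
    rw [show (2 * Real.pi * Complex.I * θ : ℂ) = ((2 * Real.pi * θ : ℝ) : ℂ) * Complex.I by
      push_cast; ring, Complex.norm_exp_ofReal_mul_I]
  rw [this, one_mul]

theorem bounded (a : ℕ → ℂ) (ha : ∀ n, 1 ≤ n → ‖a n‖ = 1) :
    ∃ C : ℝ, ∃ᶠ N in atTop, m a N ≤ C := by
  obtain ⟨C, hC⟩ := Pool.Agent.V11315.Flat.main a ha
  refine ⟨C, hC.mono ?_⟩
  rintro N ⟨z, hz, h⟩
  have h1 : z = Complex.exp (2 * Real.pi * Complex.I * ((z.arg / (2 * Real.pi) : ℝ) : ℂ)) := by
    have h2 := Complex.norm_mul_exp_arg_mul_I z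
    rw [hz, Complex.ofReal_one, one_mul] at h2
    rw [← h2]
    congr 1
    rw [h2]
    push_cast
    have hpi : (Real.pi : ℂ) ≠ 0 := by exact_mod_cast Real.pi_ne_zero
    field_simp
  refine (m_le a N (z.arg / (2 * Real.pi))).trans ?_
  rw [S_eq, ← h1]
  exact h

theorem liminf_zero (a : ℕ → ℂ) (ha : ∀ n, 1 ≤ n → ‖a n‖ = 1) :
    liminf (fun N : ℕ => m a N / √(N : ℝ)) atTop = 0 := by
  obtain ⟨C, hC⟩ := bounded a ha
  have hset : ∀ b : ℝ, (∀ᶠ N : ℕ in atTop, b ≤ m a N / √(N : ℝ)) → b ≤ 0 := by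
    intro b hb
    by_contra hlt
    push Not at hlt
    have hlarge : ∀ᶠ N : ℕ in atTop, C / b < √(N : ℝ) :=
      (Real.tendsto_sqrt_atTop.comp tendsto_natCast_atTop_atTop).eventually_gt_atTop _
    obtain ⟨N, h1, h2, h3, h4⟩ :=
      (hC.and_eventually (hb.and (hlarge.and (eventually_gt_atTop 0)))).exists
    have hpos : (0 : ℝ) < √(N : ℝ) := Real.sqrt_pos.2 (by exact_mod_cast h4)
    rw [le_div_iff₀ hpos] at h2
    rw [div_lt_iff₀ hlt] at h3
    linarith
  rw [Filter.liminf_eq]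
  apply le_antisymm
  · exact csSup_le ⟨0, Eventually.of_forall fun N => div_nonneg (m_nonneg a N) (Real.sqrt_nonneg _)⟩
      fun b hb => hset b hb
  · exact le_csSup ⟨0, fun b hb => hset b hb⟩
      (Eventually.of_forall fun N => div_nonneg (m_nonneg a N) (Real.sqrt_nonneg _))

/-- **Answer to Q1.** For every sequence of complex numbers of modulus `1` the minimum `m(N)` of
the modulus of the exponential sum over `n ≤ N` does not tend to infinity with `N`: it is at most some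
constant for infinitely many `N`. In particular `liminf m(N) / √N = 0` for the Liouville
function. -/
theorem result :
    (∀ a : ℕ → ℂ, (∀ n, 1 ≤ n → ‖a n‖ = 1) → ∃ C : ℝ, ∃ᶠ N in atTop, m a N ≤ C) ∧
      liminf (fun N : ℕ => m (fun n => (-1) ^ ArithmeticFunction.cardFactors n) N / √(N : ℝ))
        atTop = 0 := by
  refine ⟨bounded, liminf_zero _ fun n _ => ?_⟩
  rw [norm_pow, norm_neg, norm_one, one_pow]

end Pool.Agent.Results.MP_69dca4_nt.NotFlatFromBelow
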